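import Mathlib
import Pool.Agent.Lib.MP_e21097_co.Defs
import Pool.Agent.Lib.MP_e21097_co.Upper
import Pool.Agent.Lib.MP_e21097_co.Example

namespace Pool.Agent.Results.MP_e21097_co.MaximumIsFour

open Pool.Agent.MP_e21097_co

/-- The list packing number of `G`: the least positive `k` such that every assignment of lists of
exactly `k` colours to the vertices of `G` has a packing. -/
noncomputable def listPackingNumber {V : Type} (G : SimpleGraph V) : ℕ :=
  sInf {k : ℕ | 1 ≤ k ∧ ∀ L : V → Finset ℕ, (∀ v, (L v).card = k) →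
    ∃ c : Fin k → V → ℕ, IsPacking G k L c}

theorem listPackingNumber_le {V : Type} [Finite V] (G : SimpleGraph V) (hb : G.IsBipartite)
    (hp : IsPlanar G) : listPackingNumber G ≤ 4 :=
  Nat.sInf_le ⟨by norm_num, fun L hL => upper G hb hp L hL⟩

theorem four_le : 4 ≤ listPackingNumber Ex.H := by
  have hne : {k : ℕ | 1 ≤ k ∧ ∀ L : Fin 64 → Finset ℕ, (∀ v, (L v).card = k) →
      ∃ c : Fin k → Fin 64 → ℕ, IsPacking Ex.H k L c}.Nonempty :=
    ⟨4, by norm_num, fun L hL => upper Ex.H Ex.H_bip Ex.H_planar L hL⟩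
  refine le_csInf hne ?_
  rintro k ⟨hk1, hk⟩
  have hk' : Ex.ListPackable Ex.H k := by
    intro L hL
    obtain ⟨c, h1, h2, h3⟩ := hk L hL
    exact ⟨c, h1, h2, fun v i j hij => h3 i j v hij⟩
  by_contra hlt
  push Not at hlt
  interval_cases k
  · exact Ex.not_packable_one hk'
  · exact Ex.not_packable_two hk'
  · exact Ex.not_packable_three hk'

/-- The maximum of the list packing number over all finite bipartite planar graphs is four. -/
theorem result : IsGreatest {n : ℕ | ∃ (V : Type) (_ : Finite V) (G : SimpleGraph V),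
    G.IsBipartite ∧ IsPlanar G ∧ listPackingNumber G = n} 4 := by
  constructor
  · exact ⟨Fin 64, inferInstance, Ex.H, Ex.H_bip, Ex.H_planar,
      le_antisymm (listPackingNumber_le Ex.H Ex.H_bip Ex.H_planar) four_le⟩
  · rintro n ⟨V, hV, G, hb, hp, rfl⟩
    exact listPackingNumber_le G hb hp

end Pool.Agent.Results.MP_e21097_co.MaximumIsFour
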